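import Pool.Agent.W717.KS.Mono

set_option autoImplicit false

namespace Pool.Agent.W717.KS

open Pool.Agent.W717.KS.Mono

section Abs

variable {C : Type} [Ring C] [Algebra ℚ C] {N : ℕ} (x : Fin N → C)
variable (q : Fin N → ℚ) (hq : ∀ i, q i ≠ 0) (hx : ∀ i, x i * x i = algebraMap ℚ C (q i))
  (hxy : ∀ i j, i ≠ j → x i * x j = -(x j * x i))

theorem split' (p p' : Fin N → ZMod 2) (hne : p ≠ p') (hne' : p' ≠ p + 1) :
    ∃ i j, sg (p i + p j) ≠ sg (p' i + p' j) := by
  obtain ⟨i, hi⟩ := Function.ne_iff.1 hne
  obtain ⟨j, hj⟩ := Function.ne_iff.1 hne'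
  have h1 : ∀ a b : ZMod 2, b ≠ a + 1 → a = b := by decide
  have hj' : p j = p' j := h1 _ _ hj
  refine ⟨i, j, ?_⟩
  rw [hj']
  exact sg_ne _ _ _ hi

include hq hx hxy in
theorem main_ind' (J : C → Prop) (hadd : ∀ a b, J a → J b → J (a + b))
    (hsmul : ∀ (r : ℚ) a, J a → J (r • a))
    (hconj : ∀ i j a, J a → J (x i * x j * a * (x j * x i))) :
    ∀ F : Finset (Fin N → ZMod 2), ∀ f : (Fin N → ZMod 2) → C, (∀ p ∈ F, f p ∈ H x p) →
      J (∑ p ∈ F, f p) → ∑ p ∈ F, f p ≠ 0 → ∃ (p : Fin N → ZMod 2) (y y' : C), y ∈ H x p ∧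
        y' ∈ H x (p + 1) ∧ J (y + y') ∧ y + y' ≠ 0 := by
  classical
  intro F
  induction F using Finset.strongInduction with
  | H F ih =>
    intro f hf hJ h0
    by_cases h2 : ∃ p ∈ F, ∃ p' ∈ F, p ≠ p' ∧ p' ≠ p + 1
    · obtain ⟨p, hp, p', hp', hne, hne'⟩ := h2
      obtain ⟨i, j, hij⟩ := split' p p' hne hne'
      set z := ∑ r ∈ F, f r with hzdef
      set z1 := ∑ r ∈ F.filter (fun r => sg (r i + r j) = 1), f r with hz1
      set z2 := ∑ r ∈ F.filter (fun r => ¬ sg (r i + r j) = 1), f r with hz2
      have hsum : z1 + z2 = z := Finset.sum_filter_add_sum_filter_not F _ f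
      have hc : x i * x j * z * (x j * x i) = (q i * q j) • (z1 - z2) := by
        have e1 : x i * x j * z * (x j * x i) =
            ∑ r ∈ F, (sg (r i + r j) * (q i * q j)) • f r := by
          rw [hzdef, Finset.mul_sum, Finset.sum_mul]
          exact Finset.sum_congr rfl fun r hr => H_conj x q hx hxy r i j (f r) (hf r hr)
        rw [e1, ← Finset.sum_filter_add_sum_filter_not F (fun r => sg (r i + r j) = 1)]
        have e2 : ∑ r ∈ F.filter (fun r => sg (r i + r j) = 1),
            (sg (r i + r j) * (q i * q j)) • f r = (q i * q j) • z1 := by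
          rw [hz1, Finset.smul_sum]
          refine Finset.sum_congr rfl fun r hr => ?_
          rw [(Finset.mem_filter.1 hr).2, one_mul]
        have e3 : ∑ r ∈ F.filter (fun r => ¬ sg (r i + r j) = 1),
            (sg (r i + r j) * (q i * q j)) • f r = -((q i * q j) • z2) := by
          rw [hz2, Finset.smul_sum, ← Finset.sum_neg_distrib]
          refine Finset.sum_congr rfl fun r hr => ?_
          rcases sg_cases (r i + r j) with h | h
          · exact absurd h (Finset.mem_filter.1 hr).2
          · rw [h, ← neg_smul]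
            congr 1
            ring
        rw [e2, e3, smul_sub, sub_eq_add_neg]
      have hqq : q i * q j ≠ 0 := mul_ne_zero (hq i) (hq j)
      have hd : J (z1 - z2) := by
        have h5 := hsmul (q i * q j)⁻¹ _ (hconj i j z hJ)
        rwa [hc, smul_smul, inv_mul_cancel₀ hqq, one_smul] at h5
      have hJ1 : J z1 := by
        have h5 := hsmul (1 / 2) _ (hadd _ _ hJ hd)
        have e : (1 / 2 : ℚ) • (z + (z1 - z2)) = z1 := by
          rw [← hsum]
          have : z1 + z2 + (z1 - z2) = (2 : ℚ) • z1 := by rw [two_smul]; abel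
          rw [this, smul_smul]
          norm_num
        rwa [e] at h5
      have hJ2 : J z2 := by
        have h5 := hsmul (1 / 2) _ (hadd _ _ hJ (hsmul (-1) _ hd))
        have e : (1 / 2 : ℚ) • (z + (-1 : ℚ) • (z1 - z2)) = z2 := by
          rw [← hsum]
          have : z1 + z2 + (-1 : ℚ) • (z1 - z2) = (2 : ℚ) • z2 := by
            rw [two_smul, neg_one_smul]; abel
          rw [this, smul_smul]
          norm_num
        rwa [e] at h5
      have hone : (sg (p i + p j) = 1 ∧ ¬ sg (p' i + p' j) = 1) ∨
          (¬ sg (p i + p j) = 1 ∧ sg (p' i + p' j) = 1) := by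
        rcases sg_cases (p i + p j) with h | h <;> rcases sg_cases (p' i + p' j) with h' | h'
        · exact absurd (h.trans h'.symm) hij
        · left; exact ⟨h, by rw [h']; norm_num⟩
        · right; exact ⟨by rw [h]; norm_num, h'⟩
        · exact absurd (h.trans h'.symm) hij
      have hs1 : F.filter (fun r => sg (r i + r j) = 1) ⊂ F := by
        rw [Finset.filter_ssubset]
        rcases hone with h | h
        · exact ⟨p', hp', h.2⟩
        · exact ⟨p, hp, h.1⟩
      have hs2 : F.filter (fun r => ¬ sg (r i + r j) = 1) ⊂ F := by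
        rw [Finset.filter_ssubset]
        rcases hone with h | h
        · exact ⟨p, hp, fun h' => h' h.1⟩
        · exact ⟨p', hp', fun h' => h' h.2⟩
      by_cases h1 : z1 = 0
      · have h3 : z2 ≠ 0 := by
          intro h3
          apply h0
          rw [← hsum, h1, h3, add_zero]
        exact ih _ hs2 f (fun r hr => hf r (Finset.mem_filter.1 hr).1) hJ2 h3
      · exact ih _ hs1 f (fun r hr => hf r (Finset.mem_filter.1 hr).1) hJ1 h1
    · push Not at h2
      have hne : F.Nonempty := by
        by_contra h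
        rw [Finset.not_nonempty_iff_eq_empty] at h
        apply h0
        rw [h, Finset.sum_empty]
      obtain ⟨p, hp⟩ := hne
      by_cases hp1 : p + 1 ∈ F ∧ p ≠ p + 1
      · have e : F = {p, p + 1} := by
          ext r
          simp only [Finset.mem_insert, Finset.mem_singleton]
          constructor
          · intro hr
            by_cases h : p = r
            · exact Or.inl h.symm
            · exact Or.inr (h2 p hp r hr h)
          · rintro (h | h)
            · rw [h]; exact hp
            · rw [h]; exact hp1.1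
        rw [e, Finset.sum_pair hp1.2] at hJ h0
        exact ⟨p, f p, f (p + 1), hf p hp, hf _ hp1.1, hJ, h0⟩
      · have e : F = {p} := by
          rw [Finset.eq_singleton_iff_unique_mem]
          refine ⟨hp, fun r hr => ?_⟩
          by_contra h
          have h3 := h2 p hp r hr (Ne.symm h)
          apply hp1
          refine ⟨h3 ▸ hr, fun h4 => h ?_⟩
          rw [h3, ← h4]
        rw [e, Finset.sum_singleton] at hJ h0
        refine ⟨p, f p, 0, hf p hp, Submodule.zero_mem _, ?_, ?_⟩
        · rw [add_zero]; exact hJ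
        · rw [add_zero]; exact h0

include hxy in
theorem rev_sign (L : List (Fin N)) (hL : L.Nodup) :
    mo x L.reverse = ((-1 : ℚ) ^ (∑ i ∈ Finset.range L.length, i)) • mo x L := by
  induction L with
  | nil => simp
  | cons a L ih =>
    rw [List.nodup_cons] at hL
    have h1 := comm1 x hxy a L
    rw [List.count_eq_zero_of_not_mem hL.1, add_zero] at h1
    rw [List.reverse_cons, mo_append, mo_cons, mo_nil, mul_one, ih hL.2, mo_cons, h1,
      List.length_cons, Finset.sum_range_succ, smul_mul_assoc, smul_smul, pow_add, mul_assoc,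
      ← pow_add, ← two_mul, pow_mul]
    norm_num

/-- the full word -/
def full (N : ℕ) : List (Fin N) := List.finRange N

theorem par_full : par (full N) = 1 := by
  funext i
  simp only [par, full, Pi.one_apply]
  rw [List.count_eq_one_of_mem (List.nodup_finRange N) (List.mem_finRange i)]
  simp

theorem even_sum (h : 4 ∣ N) : Even (∑ i ∈ Finset.range N, i) := by
  obtain ⟨k, rfl⟩ := h
  have h1 := Finset.sum_range_id_mul_two (4 * k)
  refine ⟨k * (4 * k - 1), ?_⟩
  have h2 : 4 * k * (4 * k - 1) = (k * (4 * k - 1) + k * (4 * k - 1)) * 2 := by ring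
  omega

include hxy in
theorem rev_full (h : 4 ∣ N) : mo x (full N).reverse = mo x (full N) := by
  have hl : (full N).length = N := by simp [full]
  rw [rev_sign x hxy (full N) (List.nodup_finRange N), hl, (even_sum h).neg_one_pow, one_smul]

include hxy in
theorem anti_full (h : Even N) (i : Fin N) :
    x i * mo x (full N) = - (mo x (full N) * x i) := by
  rw [comm1 x hxy i]
  rw [full, List.length_finRange,
    List.count_eq_one_of_mem (List.nodup_finRange N) (List.mem_finRange i), h.add_one.neg_one_pow,
    neg_one_smul]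

include hq hx hxy in
theorem one_mem [Nontrivial C] (h4 : 4 ∣ N) (i0 : Fin N) (J : C → Prop)
    (hadd : ∀ a b, J a → J b → J (a + b))
    (hsmul : ∀ (r : ℚ) a, J a → J (r • a))
    (hmul : ∀ (L L' : List (Fin N)) a, Even L.length → Even L'.length → J a →
      J (mo x L * a * mo x L'))
    (rv : C →ₗ[ℚ] C) (hr1 : rv 1 = 1) (hrm : ∀ L, rv (mo x L) = mo x L.reverse)
    (hrv : ∀ a, J a → J (x i0 * rv a * x i0))
    (a : C) (haJ : J a) (ha0 : a ≠ 0)
    (ha : a ∈ Submodule.span ℚ {y | ∃ L : List (Fin N), Even L.length ∧ y = mo x L}) : J 1 := by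
  have hN : Even N := by
    obtain ⟨k, rfl⟩ := h4
    exact ⟨2 * k, by ring⟩
  obtain ⟨f, hf, hzf⟩ := decomp x a ha
  obtain ⟨p, y, y', hy, hy', hJ, h0⟩ := main_ind' x q hq hx hxy J hadd hsmul
    (by
      intro i j b hb
      have := hmul [i, j] [j, i] b (by simp) (by simp) hb
      simpa [mo] using this) Finset.univ f (fun p _ => hf p)
    (by rw [← hzf]; exact haJ) (by rw [← hzf]; exact ha0)
  by_cases hy0 : y = 0
  · have hy0' : y' ≠ 0 := by
      rintro rfl
      exact h0 (by rw [hy0, add_zero])
    obtain ⟨L, c, hL, _, hc, rfl⟩ := H_form x q hq hx hxy _ y' hy' hy0'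
    obtain ⟨t, ht, h2⟩ := rev1 x q hq hx L
    rw [hy0, zero_add] at hJ
    have h3 := hsmul (c * t)⁻¹ _ (hmul [] L.reverse _ (by simp) (by simpa using hL) hJ)
    rw [mo_nil, one_mul, smul_mul_assoc, h2, Algebra.algebraMap_eq_smul_one, smul_smul, smul_smul,
      mul_assoc, inv_mul_cancel₀ (mul_ne_zero hc ht), one_smul] at h3
    exact h3
  · obtain ⟨L, c, hL, hpL, hc, hyL⟩ := H_form x q hq hx hxy _ y hy hy0
    obtain ⟨t, ht, h2⟩ := rev1 x q hq hx L
    have h3 := hmul [] L.reverse _ (by simp) (by simpa using hL) hJ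
    have h4' : ∃ b : ℚ, y' * mo x L.reverse = b • mo x (full N) := by
      by_cases hy0' : y' = 0
      · exact ⟨0, by rw [hy0', zero_mul, zero_smul]⟩
      · obtain ⟨L', d, hL', hpL', _, hyL'⟩ := H_form x q hq hx hxy _ y' hy' hy0'
        obtain ⟨s, hs⟩ := prop x q hq hx hxy (L' ++ L.reverse) (full N) (by
          rw [par_full]
          funext i
          have e1 := congrFun hpL i
          have e2 := congrFun hpL' i
          simp only [par, Pi.add_apply, Pi.one_apply] at e1 e2 ⊢
          rw [List.count_append, List.count_reverse]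
          push_cast
          rw [e1, e2]
          have : ∀ a : ZMod 2, a + 1 + a = 1 := by decide
          exact this _)
        refine ⟨d * s, ?_⟩
        rw [hyL', smul_mul_assoc, ← mo_append, hs, smul_smul]
    obtain ⟨b, hb⟩ := h4'
    have h5 : mo x [] * (y + y') * mo x L.reverse = (c * t) • (1 : C) + b • mo x (full N) := by
      rw [mo_nil, one_mul, add_mul, hb, hyL, smul_mul_assoc, h2, Algebra.algebraMap_eq_smul_one,
        smul_smul]
    rw [h5] at h3
    have h6 := hsmul (q i0)⁻¹ _ (hrv _ h3)
    have h7 : (q i0)⁻¹ • (x i0 * rv ((c * t) • (1 : C) + b • mo x (full N)) * x i0) =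
        (c * t) • (1 : C) - b • mo x (full N) := by
      rw [map_add, map_smul, map_smul, hr1, hrm, rev_full x hxy h4, mul_add, add_mul,
        mul_smul_comm, mul_smul_comm, smul_mul_assoc, smul_mul_assoc, mul_one,
        anti_full x hxy hN i0, neg_mul, mul_assoc, hx i0, ← Algebra.commutes,
        Algebra.algebraMap_eq_smul_one, smul_mul_assoc, one_mul, smul_neg, smul_add, smul_neg,
        smul_smul, smul_smul, smul_smul, smul_smul, sub_eq_add_neg]
      congr 2
      · have := hq i0
        field_simp
      · congr 1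
        have := hq i0
        field_simp
    rw [h7] at h6
    have h8 := hsmul (2 * (c * t))⁻¹ _ (hadd _ _ h3 h6)
    have h9 : (c * t) • (1 : C) + b • mo x (full N) + ((c * t) • (1 : C) - b • mo x (full N)) =
        (2 * (c * t)) • (1 : C) := by
      rw [mul_smul (2 : ℚ) (c * t) (1 : C), two_smul]
      abel
    rw [h9, smul_smul, inv_mul_cancel₀ (mul_ne_zero two_ne_zero (mul_ne_zero hc ht)),
      one_smul] at h8
    exact h8

end Abs

end Pool.Agent.W717.KS
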