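import Pool.Agent.W488.KS.Stm3
import Pool.Agent.W717.KS.Ker4a

set_option autoImplicit false

open Matrix Finset Module

namespace Pool.Agent.W717.KS

open Pool.Agent.W488.KS CliffordAlgebra Pool.Agent.W717.KS.Mono

theorem rev_mo {M : Type} [AddCommGroup M] [Module ℚ M] (F : QuadraticForm ℚ M) {N : ℕ}
    (v : Module.Basis (Fin N) ℚ M) (L : List (Fin N)) :
    reverse (mo (xx F v) L) = mo (xx F v) L.reverse := by
  induction L with
  | nil => simp
  | cons a L ih =>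
    rw [mo_cons, List.reverse_cons, mo_append, mo_cons, mo_nil, mul_one, reverse.map_mul, ih]
    congr 1
    exact reverse_ι _

theorem ker4 : S_ker4 := by
  intro n a b Q hs hd h4 Θ α β μ hμ hΘ m hm hm0 hm1
  by_contra hmne
  obtain ⟨i0, hi0⟩ := hΘ
  -- the orthogonal basis
  have hsymm : LinearMap.IsSymm (Matrix.toBilin' Q) := by
    constructor
    intro a b
    simp only [Matrix.toBilin'_apply', RingHom.id_apply]
    rw [Matrix.dotProduct_mulVec, dotProduct_comm, ← Matrix.mulVec_transpose, hs]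
  have hnd : (Matrix.toBilin' Q).Nondegenerate :=
    LinearMap.BilinForm.nondegenerate_toBilin'_iff_det_ne_zero.2 hd
  obtain ⟨v, hv⟩ := LinearMap.BilinForm.exists_orthogonal_basis hsymm
  have hfin : Module.finrank ℚ (Fin n → ℚ) = n := by simp
  have hvne : ∀ i, qf Q (v i) ≠ 0 := fun i =>
    LinearMap.BilinForm.iIsOrtho.not_isOrtho_basis_self_of_nondegenerate hv hnd i
  have hpol : ∀ i j, i ≠ j → QuadraticMap.polar (qf Q) (v i) (v j) = 0 := by
    intro i j hij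
    have h3 : Matrix.toBilin' Q (v i) (v j) = 0 := hv hij
    have h4 : Matrix.toBilin' Q (v j) (v i) = 0 := hv (Ne.symm hij)
    have h5 : QuadraticMap.polar (qf Q) (v i) (v j) =
        Matrix.toBilin' Q (v i) (v j) + Matrix.toBilin' Q (v j) (v i) :=
      LinearMap.BilinMap.polar_toQuadraticMap _ _
    rw [h5, h3, h4, add_zero]
  have hx : ∀ i, xx (qf Q) v i * xx (qf Q) v i = algebraMap ℚ _ (qf Q (v i)) :=
    fun i => ι_sq_scalar _ _
  have hxy : ∀ i j, i ≠ j → xx (qf Q) v i * xx (qf Q) v j = -(xx (qf Q) v j * xx (qf Q) v i) := by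
    intro i j hij
    have h1 := ι_mul_ι_add_swap (Q := qf Q) (v i) (v j)
    rw [hpol i j hij, map_zero] at h1
    exact eq_neg_of_add_eq_zero_left h1
  have k0 : Fin (Module.finrank ℚ (Fin n → ℚ)) := Fin.cast hfin.symm i0
  set e : Fin n → ℚ := v k0 with he0
  have he : qf Q e ≠ 0 := hvne k0
  set q0 := qf Q e with hq0
  have hee : ι (qf Q) e * ι (qf Q) e = algebraMap ℚ _ q0 := ι_sq_scalar _ _
  have h2 : (1 : ZMod 2) + 1 = 0 := by decide
  have hoo : ∀ m m' : CliffordAlgebra (qf Q), m ∈ evenOdd (qf Q) 1 → m' ∈ evenOdd (qf Q) 1 →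
      m * m' ∈ evenOdd (qf Q) 0 := by
    intro m m' hm hm'
    have := evenOdd_mul_le (qf Q) 1 1 (Submodule.mul_mem_mul hm hm')
    rwa [h2] at this
  have hoe : ∀ m m' : CliffordAlgebra (qf Q), m ∈ evenOdd (qf Q) 1 → m' ∈ evenOdd (qf Q) 0 →
      m * m' ∈ evenOdd (qf Q) 1 := by
    intro m m' hm hm'
    have := evenOdd_mul_le (qf Q) 1 0 (Submodule.mul_mem_mul hm hm')
    rwa [add_zero] at this
  have heo : ∀ m m' : CliffordAlgebra (qf Q), m ∈ evenOdd (qf Q) 0 → m' ∈ evenOdd (qf Q) 1 →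
      m * m' ∈ evenOdd (qf Q) 1 := by
    intro m m' hm hm'
    have := evenOdd_mul_le (qf Q) 0 1 (Submodule.mul_mem_mul hm hm')
    rwa [zero_add] at this
  have hev : ∀ m m' : CliffordAlgebra (qf Q), m ∈ evenOdd (qf Q) 0 → m' ∈ evenOdd (qf Q) 0 →
      m * m' ∈ evenOdd (qf Q) 0 := by
    intro m m' hm hm'
    have := evenOdd_mul_le (qf Q) 0 0 (Submodule.mul_mem_mul hm hm')
    rwa [add_zero] at this
  have hodd : ∀ m ∈ evenOdd (qf Q) 1, ∃ z : even (qf Q),
      ι (qf Q) e * (z : CliffordAlgebra (qf Q)) = m := by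
    intro m hm
    have h1 : q0⁻¹ • (ι (qf Q) e * m) ∈ evenOdd (qf Q) 0 :=
      Submodule.smul_mem _ _ (hoo _ _ (ι_mem_evenOdd_one _ e) hm)
    refine ⟨⟨_, h1⟩, ?_⟩
    show ι (qf Q) e * (q0⁻¹ • (ι (qf Q) e * m)) = m
    rw [mul_smul_comm, ← mul_assoc, hee, ← Algebra.smul_def, smul_smul, inv_mul_cancel₀ he,
      one_smul]
  have hμ1 : ∀ (v : Fin n → ℚ) (z : even (qf Q)),
      μ (ι (qf Q) v * (z : CliffordAlgebra (qf Q))) = (α z)ᵀ * (∑ i, v i • Θ i) := by
    intro v z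
    have h := hμ v z 1
    rw [map_one, Matrix.mul_one] at h
    rw [← h]
    congr 1
    rw [OneMemClass.coe_one, reverse.map_one, one_mul]
  -- left and right multiplication by even elements
  have hbi : ∀ m ∈ evenOdd (qf Q) 1, μ m = 0 → ∀ y' ∈ evenOdd (qf Q) 0, ∀ y ∈ evenOdd (qf Q) 0,
      μ (y' * m * y) = 0 := by
    intro m hm h0 y' hy' y hy
    obtain ⟨z, hz⟩ := hodd m hm
    have hw' : reverse y' ∈ evenOdd (qf Q) 0 := (reverse_mem_evenOdd_iff (qf Q)).2 hy'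
    have h5 := hμ e (z * ⟨y, hy⟩) ⟨_, hw'⟩
    have h6 : reverse (((⟨_, hw'⟩ : even (qf Q)) : CliffordAlgebra (qf Q))) * ι (qf Q) e *
        ((z * ⟨y, hy⟩ : even (qf Q)) : CliffordAlgebra (qf Q)) = y' * m * y := by
      show reverse (reverse y') * ι (qf Q) e * ((z : CliffordAlgebra (qf Q)) * y) = y' * m * y
      rw [reverse_reverse, ← hz]
      simp only [mul_assoc]
    rw [h6] at h5
    rw [h5, map_mul, Matrix.transpose_mul, Matrix.mul_assoc (α ⟨y, hy⟩)ᵀ, ← hμ1, hz, h0,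
      Matrix.mul_zero, Matrix.zero_mul]
  -- the set
  let J : CliffordAlgebra (qf Q) → Prop := fun c => c ∈ evenOdd (qf Q) 0 ∧
    μ (ι (qf Q) e * c) = 0 ∧ μ (reverse (ι (qf Q) e * c)) = 0
  have hadd : ∀ a b, J a → J b → J (a + b) := by
    rintro a b ⟨h1, h2, h3⟩ ⟨h1', h2', h3'⟩
    refine ⟨Submodule.add_mem _ h1 h1', ?_, ?_⟩
    · rw [mul_add, map_add, h2, h2', add_zero]
    · rw [mul_add, map_add, map_add, h3, h3', add_zero]
  have hsmul : ∀ (r : ℚ) a, J a → J (r • a) := by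
    rintro r a ⟨h1, h2, h3⟩
    refine ⟨Submodule.smul_mem _ _ h1, ?_, ?_⟩
    · rw [mul_smul_comm, map_smul, h2, smul_zero]
    · rw [mul_smul_comm, map_smul, map_smul, h3, smul_zero]
  have hmul : ∀ y ∈ evenOdd (qf Q) 0, ∀ y' ∈ evenOdd (qf Q) 0, ∀ a, J a → J (y * a * y') := by
    rintro y hy y' hy' a ⟨h1, h2, h3⟩
    have hod : ι (qf Q) e * a ∈ evenOdd (qf Q) 1 := hoe _ _ (ι_mem_evenOdd_one _ e) h1
    have hw : q0⁻¹ • (ι (qf Q) e * y * ι (qf Q) e) ∈ evenOdd (qf Q) 0 :=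
      Submodule.smul_mem _ _ (hoo _ _ (hoe _ _ (ι_mem_evenOdd_one _ e) hy)
        (ι_mem_evenOdd_one _ e))
    have hk : ι (qf Q) e * (y * a * y') =
        (q0⁻¹ • (ι (qf Q) e * y * ι (qf Q) e)) * (ι (qf Q) e * a) * y' := by
      rw [smul_mul_assoc, smul_mul_assoc, mul_assoc (ι (qf Q) e * y), ← mul_assoc (ι (qf Q) e)
        (ι (qf Q) e) a, hee, ← Algebra.smul_def, mul_smul_comm, smul_mul_assoc, smul_smul,
        inv_mul_cancel₀ he, one_smul]
      simp only [mul_assoc]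
    refine ⟨hev _ _ (hev _ _ hy h1) hy', ?_, ?_⟩
    · rw [hk]
      exact hbi _ hod h2 _ hw _ hy'
    · rw [hk, reverse.map_mul, reverse.map_mul, ← mul_assoc]
      exact hbi _ ((reverse_mem_evenOdd_iff (qf Q)).2 hod) h3 _
        ((reverse_mem_evenOdd_iff (qf Q)).2 hy') _ ((reverse_mem_evenOdd_iff (qf Q)).2 hw)
  have hmo : ∀ L : List (Fin (Module.finrank ℚ (Fin n → ℚ))), Even L.length →
      mo (xx (qf Q) v) L ∈ evenOdd (qf Q) 0 := by
    intro L hL
    have h2 := mo_mem (qf Q) v L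
    rwa [(ZMod.natCast_eq_zero_iff_even).2 hL] at h2
  haveI : Invertible (2 : ℚ) := invertibleOfNonzero two_ne_zero
  obtain ⟨c, hc⟩ := hodd m hm
  have hJ1 : J 1 := by
    refine one_mem (xx (qf Q) v) (fun i => qf Q (v i)) hvne hx hxy (by rw [hfin]; exact h4) k0 J
      hadd hsmul (fun L L' a hL hL' ha => hmul _ (hmo L hL) _ (hmo L' hL') a ha)
      reverse reverse.map_one (rev_mo (qf Q) v) ?_ (c : CliffordAlgebra (qf Q)) ?_ ?_ ?_
    · rintro a ⟨h1, h2, h3⟩
      have hod : ι (qf Q) e * a ∈ evenOdd (qf Q) 1 := hoe _ _ (ι_mem_evenOdd_one _ e) h1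
      have h1' : reverse a ∈ evenOdd (qf Q) 0 := (reverse_mem_evenOdd_iff (qf Q)).2 h1
      have hk : ι (qf Q) e * (ι (qf Q) e * reverse a * ι (qf Q) e) =
          q0 • reverse (ι (qf Q) e * a) := by
        rw [← mul_assoc, ← mul_assoc, hee, ← Algebra.smul_def, smul_mul_assoc, reverse.map_mul,
          reverse_ι]
      show J (ι (qf Q) e * reverse a * ι (qf Q) e)
      refine ⟨hoo _ _ (hoe _ _ (ι_mem_evenOdd_one _ e) h1') (ι_mem_evenOdd_one _ e), ?_, ?_⟩
      · rw [hk, map_smul, h3, smul_zero]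
      · rw [hk, map_smul, map_smul, reverse_reverse, h2, smul_zero]
    · refine ⟨c.2, ?_, ?_⟩
      · rw [hc]; exact hm0
      · rw [hc]; exact hm1
    · intro h
      apply hmne
      rw [← hc, h, mul_zero]
    · exact even_sp (qf Q) v _ c.2
  -- contradiction
  apply hi0
  obtain ⟨z, hz⟩ := hodd (ι (qf Q) (Pi.single i0 1)) (ι_mem_evenOdd_one _ _)
  have h1 := hmul 1 (SetLike.GradedOne.one_mem (A := evenOdd (qf Q))) z z.2 1 hJ1
  rw [one_mul, one_mul] at h1
  have h1' := h1.2.1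
  rw [hz] at h1'
  have h3 := hμ1 (Pi.single i0 1) 1
  rw [OneMemClass.coe_one, mul_one, h1', map_one, Matrix.transpose_one, Matrix.one_mul] at h3
  rw [Finset.sum_eq_single i0] at h3
  · rw [Pi.single_eq_same, one_smul] at h3
    exact h3.symm
  · intro j _ hj
    rw [Pi.single_eq_of_ne hj, zero_smul]
  · intro hj
    exact absurd (Finset.mem_univ _) hj

end Pool.Agent.W717.KS
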